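import Mathlib
import Pool.Agent.Y166.SM.Stm

/-!
# Curves of the second kind of symmetric matrices of rank three
-/

set_option autoImplicit false
set_option linter.unusedSectionVars false

namespace Pool.Agent.Y366.SM

open Polynomial Matrix Pool.Agent.Y166.SM

section
variable {k : Type} [Field k]

/-- Symmetric matrices of rank one over a polynomial ring. -/
theorem decomp {ι : Type} [Fintype ι] (Q : ι → ι → k[X]) (hs : ∀ i j, Q i j = Q j i)
    (hr : ∀ i j l m, Q i j * Q l m = Q i m * Q l j) (d : ℕ) (hd : ∀ i j, (Q i j).natDegree ≤ d)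
    (h0 : ∃ i j, Q i j ≠ 0) :
    ∃ (e : ℕ) (h : k[X]) (a : ι → k[X]), 2 * e ≤ d ∧ (∀ i, (a i).natDegree ≤ e) ∧
      h.natDegree ≤ d - 2 * e ∧ ∀ i j, Q i j = h * a i * a j := by
  classical
  obtain ⟨i0, hi0⟩ : ∃ i, Q i i ≠ 0 := by
    obtain ⟨i, j, hij⟩ := h0
    refine ⟨i, fun h => hij ?_⟩
    have h1 := hr i j j i
    rw [h, zero_mul, hs j i, ← sq] at h1
    exact pow_eq_zero_iff (two_ne_zero) |>.1 h1
  set q := Q i0 i0 with hq
  have hb : ∀ i j, q * Q i j = Q i0 i * Q i0 j := by
    intro i j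
    have h1 := hr i j i0 i0
    rw [mul_comm, h1, hs i i0]
  obtain ⟨g, hg⟩ := IsPrincipalIdealRing.principal (Ideal.span (Set.range (Q i0)))
  have hg' : Ideal.span (Set.range (Q i0)) = Ideal.span {g} := hg
  have hdvd : ∀ j, g ∣ Q i0 j := by
    intro j
    have h1 : Q i0 j ∈ Ideal.span {g} := by
      rw [← hg']
      exact Ideal.subset_span ⟨j, rfl⟩
    exact Ideal.mem_span_singleton.1 h1
  choose a ha using hdvd
  have hg0 : g ≠ 0 := by
    intro h
    apply hi0
    rw [hq, ha i0, h, zero_mul]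
  have hgm : g ∈ Ideal.span (Set.range (Q i0)) := by
    rw [hg']
    exact Ideal.mem_span_singleton_self g
  obtain ⟨r, hr'⟩ := (Ideal.mem_span_range_iff_exists_fun).1 hgm
  have hra : ∑ i, r i * a i = 1 := by
    have h1 : g * ∑ i, r i * a i = g * 1 := by
      rw [Finset.mul_sum, mul_one]
      conv_rhs => rw [← hr']
      refine Finset.sum_congr rfl fun i _ => ?_
      rw [ha i]
      ring
    exact mul_left_cancel₀ hg0 h1
  set h : k[X] := ∑ i, ∑ j, r i * r j * Q i j with hh
  have hqh : q * h = g ^ 2 := by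
    rw [hh, Finset.mul_sum]
    have h1 : ∀ i, q * ∑ j, r i * r j * Q i j = g ^ 2 * (r i * a i) * ∑ j, r j * a j := by
      intro i
      rw [Finset.mul_sum, Finset.mul_sum]
      refine Finset.sum_congr rfl fun j _ => ?_
      calc q * (r i * r j * Q i j) = r i * r j * (q * Q i j) := by ring
        _ = r i * r j * (Q i0 i * Q i0 j) := by rw [hb]
        _ = r i * r j * (g * a i * (g * a j)) := by rw [← ha, ← ha]
        _ = _ := by ring
    rw [Finset.sum_congr rfl fun i _ => h1 i, ← Finset.sum_mul, ← Finset.mul_sum, hra]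
    ring
  have hQ : ∀ i j, Q i j = h * a i * a j := by
    intro i j
    have h1 : q * Q i j = q * (h * a i * a j) := by
      calc q * Q i j = Q i0 i * Q i0 j := hb i j
        _ = g * a i * (g * a j) := by rw [← ha, ← ha]
        _ = g ^ 2 * a i * a j := by ring
        _ = q * h * a i * a j := by rw [hqh]
        _ = _ := by ring
    exact mul_left_cancel₀ hi0 h1
  have hh0 : h ≠ 0 := by
    intro h1
    apply hi0
    rw [hq, hQ, h1, zero_mul, zero_mul]
  -- the maximal degree
  obtain ⟨i1, hi1⟩ : ∃ i1, a i1 ≠ 0 ∧ ∀ i, (a i).natDegree ≤ (a i1).natDegree := by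
    have hne : (Finset.univ.filter fun i => a i ≠ 0).Nonempty := by
      by_contra hcon
      rw [Finset.not_nonempty_iff_eq_empty] at hcon
      have h1 : ∀ i, a i = 0 := by
        intro i
        by_contra h2
        have : i ∈ (Finset.univ.filter fun i => a i ≠ 0) := by simp [h2]
        rw [hcon] at this
        simp at this
      rw [Finset.sum_eq_zero fun i _ => by rw [h1 i, mul_zero]] at hra
      exact zero_ne_one hra
    obtain ⟨i1, h1, h2⟩ := Finset.exists_max_image _ (fun i => (a i).natDegree) hne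
    refine ⟨i1, (Finset.mem_filter.1 h1).2, fun i => ?_⟩
    by_cases hi : a i = 0
    · rw [hi, Polynomial.natDegree_zero]
      exact Nat.zero_le _
    · exact h2 i (by simp [hi])
  have hdeg : h.natDegree + 2 * (a i1).natDegree ≤ d := by
    have h1 := hd i1 i1
    rw [hQ, Polynomial.natDegree_mul (mul_ne_zero hh0 hi1.1) hi1.1,
      Polynomial.natDegree_mul hh0 hi1.1] at h1
    omega
  exact ⟨(a i1).natDegree, h, a, by omega, hi1.2, by omega, hQ⟩

/-- A polynomial which vanishes outside zero vanishes. -/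
theorem poly_zero [CharZero k] (P : k[X]) (h : ∀ t : k, t ≠ 0 → P.eval t = 0) : P = 0 := by
  have h1 : X * P = 0 := by
    apply Polynomial.funext
    intro t
    rw [Polynomial.eval_mul, Polynomial.eval_X, Polynomial.eval_zero]
    by_cases ht : t = 0
    · rw [ht, zero_mul]
    · rw [h t ht, mul_zero]
  rcases mul_eq_zero.1 h1 with h2 | h2
  · exact absurd h2 Polynomial.X_ne_zero
  · exact h2

theorem minor_factor (C : Matrix (Fin 6) (Fin 3) k) (K : Matrix (Fin 3) (Fin 3) k) (a b : S3) :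
    ((C * K * C.transpose).submatrix a b).det =
      (C.submatrix a id).det * K.det * (C.submatrix b id).det := by
  have h : (C * K * C.transpose).submatrix a b =
      (C.submatrix a id) * K * (C.submatrix b id).transpose := by
    ext i j
    simp [Matrix.mul_apply, Matrix.submatrix_apply]
  rw [h, Matrix.det_mul, Matrix.det_mul, Matrix.det_transpose]

/-- Matrices of rank three. -/
def R3 (D : Matrix (Fin 6) (Fin 6) k) : Prop :=
  ∃ (C : Matrix (Fin 6) (Fin 3) k) (Q : Matrix (Fin 3) (Fin 3) k),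
    Q.transpose = Q ∧ Q.det ≠ 0 ∧ (∃ a : S3, (C.submatrix a id).det ≠ 0) ∧
    D = C * Q * C.transpose

theorem R3.sym {D : Matrix (Fin 6) (Fin 6) k} (h : R3 D) (i j : Fin 6) : D i j = D j i := by
  obtain ⟨C, Q, hQ, -, -, rfl⟩ := h
  have h1 : (C * Q * C.transpose).transpose = C * Q * C.transpose := by
    rw [Matrix.transpose_mul, Matrix.transpose_mul, Matrix.transpose_transpose, hQ,
      Matrix.mul_assoc]
  exact congrFun (congrFun h1 j) i

theorem R3.minor {D : Matrix (Fin 6) (Fin 6) k} (h : R3 D) :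
    ∃ a : S3, (D.submatrix a a).det ≠ 0 := by
  obtain ⟨C, Q, -, hd, ⟨a, ha⟩, rfl⟩ := h
  refine ⟨a, ?_⟩
  rw [minor_factor]
  exact mul_ne_zero (mul_ne_zero ha hd) ha

/-- Subtracting the square of a vector of the image. -/
theorem R3.sub {D : Matrix (Fin 6) (Fin 6) k} (h : R3 D) (x v : Fin 6 → k) (t c : k)
    (ht : t ≠ 0) (hc : c ≠ 0) (hD : D *ᵥ x = t • v) (hxv : v ⬝ᵥ x = c) (a : S3) :
    ((D - (t / c) • Matrix.vecMulVec v v).submatrix a a).det = 0 := by
  obtain ⟨C, Q, hQ, hd, -, rfl⟩ := h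
  set w := C.transpose *ᵥ x with hw
  have h1 : C *ᵥ (Q *ᵥ w) = t • v := by
    rw [hw, Matrix.mulVec_mulVec, Matrix.mulVec_mulVec, hD]
  have h2 : (Q *ᵥ w) ⬝ᵥ w = t * c := by
    rw [hw, dotProduct_mulVec, Matrix.vecMul_transpose, ← hw, h1, smul_dotProduct, hxv,
      smul_eq_mul]
  have hw0 : w ≠ 0 := by
    intro h0
    rw [h0, dotProduct_zero] at h2
    exact mul_ne_zero ht hc h2.symm
  have h3 : C * Q * C.transpose - (t / c) • Matrix.vecMulVec v v =
      C * (Q - (1 / (t * c)) • Matrix.vecMulVec (Q *ᵥ w) (Q *ᵥ w)) * C.transpose := by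
    rw [Matrix.mul_sub, Matrix.sub_mul, Matrix.mul_smul, Matrix.smul_mul,
      Matrix.mul_vecMulVec, Matrix.vecMulVec_mul, Matrix.vecMul_transpose, h1,
      Matrix.smul_vecMulVec, Matrix.vecMulVec_smul, smul_smul, smul_smul]
    congr 2
    field_simp
  have h4 : (Q - (1 / (t * c)) • Matrix.vecMulVec (Q *ᵥ w) (Q *ᵥ w)).det = 0 := by
    rw [← Matrix.exists_mulVec_eq_zero_iff]
    refine ⟨w, hw0, ?_⟩
    rw [Matrix.sub_mulVec, Matrix.smul_mulVec, Matrix.vecMulVec_mulVec, h2]
    ext i
    simp only [Pi.sub_apply, Pi.smul_apply, smul_eq_mul, MulOpposite.smul_eq_mul_unop,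
      MulOpposite.unop_op, Pi.zero_apply]
    field_simp
    ring
  rw [h3, minor_factor, h4, mul_zero, zero_mul]

/-- The form has rank one modulo the kernel. -/
theorem R3.det_zero {D : Matrix (Fin 6) (Fin 6) k} (h : R3 D) (x v : Fin 6 → k) (t : k)
    (ht : t ≠ 0) (hv : v ≠ 0) (hD : D *ᵥ x = t • v) (U W : Matrix (Fin 6) (Fin 3) k)
    (hW : v ᵥ* W = 0) : (U.transpose * D * W).det = 0 := by
  obtain ⟨C, Q, hQ, hd, -, rfl⟩ := h
  set w := C.transpose *ᵥ x with hw
  have h1 : C *ᵥ (Q *ᵥ w) = t • v := by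
    rw [hw, Matrix.mulVec_mulVec, Matrix.mulVec_mulVec, hD]
  have hq : Q *ᵥ w ≠ 0 := by
    intro h0
    rw [h0, Matrix.mulVec_zero] at h1
    exact (smul_ne_zero ht hv) h1.symm
  have h2 : (C.transpose * W).det = 0 := by
    rw [← Matrix.exists_vecMul_eq_zero_iff]
    refine ⟨Q *ᵥ w, hq, ?_⟩
    rw [← Matrix.vecMul_vecMul, Matrix.vecMul_transpose, h1, Matrix.smul_vecMul, hW, smul_zero]
  have h3 : U.transpose * (C * Q * C.transpose) * W =
      (U.transpose * C * Q) * (C.transpose * W) := by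
    simp only [Matrix.mul_assoc]
  rw [h3, Matrix.det_mul, h2, mul_zero]

/-- The form on the hyperplane orthogonal to `v`. -/
def gf (v : Fin 6 → k) (p : Fin 6) (M : Matrix (Fin 6) (Fin 6) k) (i j : Fin 6) : k :=
  M i j - (v i / v p) * M p j - (v j / v p) * M i p + (v i / v p) * (v j / v p) * M p p

/-- The projections of the basis vectors. -/
def pr (v : Fin 6 → k) (p i : Fin 6) : Fin 6 → k := Pi.single i 1 - (v i / v p) • Pi.single p 1

theorem dot_pr (v : Fin 6 → k) (p i : Fin 6) (hp : v p ≠ 0) : v ⬝ᵥ pr v p i = 0 := by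
  unfold pr
  rw [dotProduct_sub, dotProduct_smul, dotProduct_single, dotProduct_single]
  simp only [mul_one, smul_eq_mul]
  field_simp
  ring

theorem pr_form (v : Fin 6 → k) (p i j : Fin 6) (M : Matrix (Fin 6) (Fin 6) k) :
    pr v p i ⬝ᵥ (M *ᵥ pr v p j) = gf v p M i j := by
  unfold pr gf
  rw [Matrix.mulVec_sub, Matrix.mulVec_smul, sub_dotProduct, smul_dotProduct, dotProduct_sub,
    dotProduct_sub, dotProduct_smul, dotProduct_smul]
  simp only [single_dotProduct, Matrix.mulVec_single, Matrix.col_apply,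
    MulOpposite.op_one, one_smul, one_mul, smul_eq_mul]
  ring

theorem mma (A : Matrix (Fin 3) (Fin 6) k) (B : Matrix (Fin 6) (Fin 6) k)
    (C : Matrix (Fin 6) (Fin 3) k) (i j : Fin 3) :
    (A * B * C) i j = (fun r => A i r) ⬝ᵥ (B *ᵥ fun r => C r j) := by
  rw [Matrix.mul_assoc, Matrix.mul_apply]
  simp only [dotProduct, Matrix.mulVec, Matrix.mul_apply]

theorem coeff3 (a b c : k) (n : ℕ) : (Polynomial.C a + Polynomial.C b * X +
    Polynomial.C c * X ^ 2 : k[X]).coeff n = if n = 0 then a else if n = 1 then b else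
      if n = 2 then c else 0 := by
  rw [Polynomial.coeff_add, Polynomial.coeff_add, Polynomial.coeff_C, Polynomial.coeff_C_mul,
    Polynomial.coeff_C_mul, Polynomial.coeff_X, Polynomial.coeff_X_pow]
  rcases n with _ | _ | _ | n <;> simp

theorem R3.rel {D : Matrix (Fin 6) (Fin 6) k} (h : R3 D) (x v : Fin 6 → k) (t : k) (p : Fin 6)
    (ht : t ≠ 0) (hp : v p ≠ 0) (hD : D *ᵥ x = t • v) (hxv : v ⬝ᵥ x = 0) (i j l m : Fin 6) :
    gf v p D i j * gf v p D l m = gf v p D i m * gf v p D l j := by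
  have hv : v ≠ 0 := fun h0 => hp (by rw [h0]; rfl)
  set U : Matrix (Fin 6) (Fin 3) k := (Matrix.of ![Pi.single p 1, pr v p i, pr v p l]).transpose
    with hU
  set W : Matrix (Fin 6) (Fin 3) k := (Matrix.of ![x, pr v p j, pr v p m]).transpose with hWd
  have hW : v ᵥ* W = 0 := by
    ext s
    rw [hWd, Matrix.vecMul_transpose]
    fin_cases s
    · show x ⬝ᵥ v = 0
      rw [dotProduct_comm, hxv]
    · show pr v p j ⬝ᵥ v = 0
      rw [dotProduct_comm, dot_pr v p j hp]
    · show pr v p m ⬝ᵥ v = 0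
      rw [dotProduct_comm, dot_pr v p m hp]
  have h1 := h.det_zero x v t ht hv hD U W hW
  have h2 : ∀ s s', (U.transpose * D * W) s s' =
      (U.transpose s) ⬝ᵥ (D *ᵥ (W.transpose s')) := by
    intro s s'
    exact mma _ _ _ s s'
  have e00 : (U.transpose * D * W) 0 0 = t * v p := by
    rw [h2]
    show Pi.single p 1 ⬝ᵥ (D *ᵥ x) = _
    rw [hD, single_dotProduct, Pi.smul_apply, smul_eq_mul, one_mul]
  have e10 : (U.transpose * D * W) 1 0 = 0 := by
    rw [h2]
    show pr v p i ⬝ᵥ (D *ᵥ x) = _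
    rw [hD, dotProduct_smul, dotProduct_comm, dot_pr v p i hp, smul_zero]
  have e20 : (U.transpose * D * W) 2 0 = 0 := by
    rw [h2]
    show pr v p l ⬝ᵥ (D *ᵥ x) = _
    rw [hD, dotProduct_smul, dotProduct_comm, dot_pr v p l hp, smul_zero]
  have e11 : (U.transpose * D * W) 1 1 = gf v p D i j := by
    rw [h2]
    exact pr_form v p i j D
  have e12 : (U.transpose * D * W) 1 2 = gf v p D i m := by
    rw [h2]
    exact pr_form v p i m D
  have e21 : (U.transpose * D * W) 2 1 = gf v p D l j := by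
    rw [h2]
    exact pr_form v p l j D
  have e22 : (U.transpose * D * W) 2 2 = gf v p D l m := by
    rw [h2]
    exact pr_form v p l m D
  rw [Matrix.det_fin_three, e00, e10, e20, e11, e12, e21, e22] at h1
  have h3 : (t * v p) * (gf v p D i j * gf v p D l m - gf v p D i m * gf v p D l j) = 0 := by
    linear_combination h1
  rcases mul_eq_zero.1 h3 with h4 | h4
  · exact absurd h4 (mul_ne_zero ht hp)
  · exact sub_eq_zero.1 h4

theorem gf_sym (v : Fin 6 → k) (p : Fin 6) (M : Matrix (Fin 6) (Fin 6) k)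
    (hM : ∀ i j, M i j = M j i) (i j : Fin 6) : gf v p M i j = gf v p M j i := by
  unfold gf
  rw [hM i j, hM p j, hM i p]
  ring

theorem gf_Mt (v : Fin 6 → k) (p : Fin 6) (M0 M1 M2 : Matrix (Fin 6) (Fin 6) k) (t : k)
    (i j : Fin 6) : gf v p (Mt M0 M1 M2 t) i j =
      gf v p M0 i j + gf v p M1 i j * t + gf v p M2 i j * t ^ 2 := by
  unfold gf Mt
  simp only [Matrix.add_apply, Matrix.smul_apply, smul_eq_mul]
  ring

/-- The remaining vector. -/
def rf (v : Fin 6 → k) (p : Fin 6) (M : Matrix (Fin 6) (Fin 6) k) (j : Fin 6) : k :=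
  M p j / v p - (v j / (2 * v p ^ 2)) * M p p

theorem entry_eq [CharZero k] (v : Fin 6 → k) (p : Fin 6) (hp : v p ≠ 0)
    (M : Matrix (Fin 6) (Fin 6) k) (hM : ∀ i j, M i j = M j i) (i j : Fin 6) :
    M i j = rf v p M i * v j + v i * rf v p M j + gf v p M i j := by
  unfold rf gf
  rw [hM i p]
  field_simp
  ring

end

theorem stmS1 : StmS1 := by
  intro k _ _ _ M0 M1 M2 hF ⟨x, hx, h0, h2⟩ hk
  have hR : ∀ t, R3 (Mt M0 M1 M2 t) := hF.fin
  have hv : M1 *ᵥ x ≠ 0 := fun h1 => hx (hk x h0 h1 h2)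
  set v := M1 *ᵥ x with hvd
  have hD : ∀ t, Mt M0 M1 M2 t *ᵥ x = t • v := by
    intro t
    unfold Mt
    rw [Matrix.add_mulVec, Matrix.add_mulVec, Matrix.smul_mulVec, Matrix.smul_mulVec, h0, h2,
      smul_zero, zero_add, add_zero]
  -- symmetry
  have hs0 : ∀ i j, M0 i j = M0 j i := by
    intro i j
    have h1 := (hR 0).sym i j
    simpa [Mt] using h1
  have hs1 : ∀ i j, M1 i j = M1 j i := by
    intro i j
    have h1 := (hR 1).sym i j
    have h3 := (hR (-1)).sym i j
    simp only [Mt, Matrix.add_apply, Matrix.smul_apply, smul_eq_mul] at h1 h3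
    have h4 : (2 : k) * (M1 i j - M1 j i) = 0 := by linear_combination h1 - h3
    rcases mul_eq_zero.1 h4 with h5 | h5
    · exact absurd h5 two_ne_zero
    · exact sub_eq_zero.1 h5
  have hs2 : ∀ i j, M2 i j = M2 j i := by
    intro i j
    have h1 := (hR 1).sym i j
    simp only [Mt, Matrix.add_apply, Matrix.smul_apply, smul_eq_mul] at h1
    linear_combination h1 - hs0 i j - hs1 i j
  -- the vector is isotropic
  have hxv : v ⬝ᵥ x = 0 := by
    by_contra hc
    obtain ⟨a, ha⟩ := (hR 0).minor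
    set A : Matrix (Fin 6) (Fin 6) k[X] := Matrix.of fun i j =>
      Polynomial.C (M0 i j) + Polynomial.C (M1 i j) * X + Polynomial.C (M2 i j) * X ^ 2 -
        Polynomial.C (v i * v j / (v ⬝ᵥ x)) * X with hA
    have hev : ∀ t : k, (A.submatrix a a).det.eval t =
        ((Mt M0 M1 M2 t - (t / (v ⬝ᵥ x)) • Matrix.vecMulVec v v).submatrix a a).det := by
      intro t
      have e1 := RingHom.map_det (Polynomial.evalRingHom t) (A.submatrix a a)
      rw [Polynomial.coe_evalRingHom] at e1
      rw [e1]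
      congr 1
      ext i j
      simp only [hA, RingHom.mapMatrix_apply, Matrix.map_apply, Matrix.submatrix_apply,
        Matrix.of_apply, Polynomial.coe_evalRingHom, Polynomial.eval_add, Polynomial.eval_sub,
        Polynomial.eval_mul, Polynomial.eval_C, Polynomial.eval_X, Polynomial.eval_pow, Mt,
        Matrix.add_apply, Matrix.sub_apply, Matrix.smul_apply, Matrix.vecMulVec_apply,
        smul_eq_mul]
      ring
    have hz : (A.submatrix a a).det = 0 := by
      apply poly_zero
      intro t ht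
      rw [hev]
      exact (hR t).sub x v t _ ht hc (hD t) rfl a
    have h3 := hev 0
    rw [hz, Polynomial.eval_zero, zero_div, zero_smul, sub_zero] at h3
    exact ha h3.symm
  obtain ⟨p, hp⟩ : ∃ p, v p ≠ 0 := by
    by_contra hcon
    push Not at hcon
    exact hv (funext hcon)
  -- the form on the hyperplane
  set G : Fin 6 → Fin 6 → k[X] := fun i j => Polynomial.C (gf v p M0 i j) +
    Polynomial.C (gf v p M1 i j) * X + Polynomial.C (gf v p M2 i j) * X ^ 2 with hG
  have hGe : ∀ i j t, (G i j).eval t = gf v p (Mt M0 M1 M2 t) i j := by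
    intro i j t
    rw [gf_Mt, hG]
    simp
  have hGs : ∀ i j, G i j = G j i := by
    intro i j
    simp only [hG]
    rw [gf_sym v p M0 hs0, gf_sym v p M1 hs1, gf_sym v p M2 hs2]
  have hGr : ∀ i j l m, G i j * G l m = G i m * G l j := by
    intro i j l m
    rw [← sub_eq_zero]
    apply poly_zero
    intro t ht
    rw [Polynomial.eval_sub, Polynomial.eval_mul, Polynomial.eval_mul, hGe, hGe, hGe, hGe,
      (hR t).rel x v t p ht hp (hD t) hxv i j l m, sub_self]
  have hGd : ∀ i j, (G i j).natDegree ≤ 2 := by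
    intro i j
    simp only [hG]
    compute_degree
  have hG0 : ∀ t : k, ∃ i j, (G i j).eval t ≠ 0 := by
    intro t
    by_contra hcon
    push Not at hcon
    obtain ⟨a, ha⟩ := (hR t).minor
    apply ha
    have h3 : ∀ i j, Mt M0 M1 M2 t i j = rf v p (Mt M0 M1 M2 t) i * v j +
        v i * rf v p (Mt M0 M1 M2 t) j := by
      intro i j
      have h4 := entry_eq v p hp (Mt M0 M1 M2 t) (hR t).sym i j
      rw [← hGe, hcon, add_zero] at h4
      exact h4
    rw [Matrix.det_fin_three]
    simp only [Matrix.submatrix_apply, h3]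
    ring
  obtain ⟨e, h, a, he, hae, hhd, hQ⟩ := decomp G hGs hGr 2 hGd (by
    obtain ⟨i, j, hij⟩ := hG0 0
    refine ⟨i, j, fun h3 => hij ?_⟩
    rw [h3, Polynomial.eval_zero])
  have hroot : ∀ t : k, h.eval t ≠ 0 := by
    intro t ht
    obtain ⟨i, j, hij⟩ := hG0 t
    apply hij
    rw [hQ, Polynomial.eval_mul, Polynomial.eval_mul, ht, zero_mul, zero_mul]
  have hdeg : h.degree = 0 := by
    by_contra hcon
    obtain ⟨t, ht⟩ := IsAlgClosed.exists_root h hcon
    exact hroot t ht
  obtain ⟨η, hη⟩ : ∃ η : k, h = Polynomial.C η := ⟨_, Polynomial.eq_C_of_degree_eq_zero hdeg⟩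
  obtain ⟨s, hs⟩ := IsAlgClosed.exists_pow_nat_eq (- η / 2) (show 0 < 2 by norm_num)
  have hηs : η = - 2 * s ^ 2 := by
    rw [hs]
    field_simp
  have ha1 : ∀ i, a i = Polynomial.C ((a i).coeff 0) + Polynomial.C ((a i).coeff 1) * X := by
    intro i
    have h3 : (a i).natDegree ≤ 1 := (hae i).trans (by omega)
    conv_lhs => rw [Polynomial.eq_X_add_C_of_natDegree_le_one h3]
    ring
  set α : Fin 6 → k := fun i => s * (a i).coeff 0 with hα
  set β : Fin 6 → k := fun i => s * (a i).coeff 1 with hβ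
  have hfin : ∀ i j, G i j = Polynomial.C (- 2 * (α i * α j)) +
      Polynomial.C (- 2 * (α i * β j + β i * α j)) * X +
      Polynomial.C (- 2 * (β i * β j)) * X ^ 2 := by
    intro i j
    rw [hQ, ha1 i, ha1 j, hη, hηs, hα, hβ]
    simp only [Polynomial.C_mul, Polynomial.C_add, Polynomial.C_neg, Polynomial.C_pow]
    ring
  have hc0 : ∀ i j, gf v p M0 i j = - 2 * (α i * α j) := by
    intro i j
    have h3 := congrArg (fun P => Polynomial.coeff P 0) (hfin i j)
    simp only [hG] at h3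
    rw [coeff3, coeff3] at h3
    exact h3
  have hc1 : ∀ i j, gf v p M1 i j = - 2 * (α i * β j + β i * α j) := by
    intro i j
    have h3 := congrArg (fun P => Polynomial.coeff P 1) (hfin i j)
    simp only [hG] at h3
    rw [coeff3, coeff3] at h3
    exact h3
  have hc2 : ∀ i j, gf v p M2 i j = - 2 * (β i * β j) := by
    intro i j
    have h3 := congrArg (fun P => Polynomial.coeff P 2) (hfin i j)
    simp only [hG] at h3
    rw [coeff3, coeff3] at h3
    exact h3
  refine ⟨![rf v p M0, rf v p M1, rf v p M2, α, β, v], ?_, ?_, ?_⟩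
  · intro i j
    show M0 i j = rf v p M0 i * v j + v i * rf v p M0 j - 2 * (α i * α j)
    rw [entry_eq v p hp M0 hs0 i j, hc0]
    ring
  · intro i j
    show M1 i j = rf v p M1 i * v j + v i * rf v p M1 j - 2 * (α i * β j + β i * α j)
    rw [entry_eq v p hp M1 hs1 i j, hc1]
    ring
  · intro i j
    show M2 i j = rf v p M2 i * v j + v i * rf v p M2 j - 2 * (β i * β j)
    rw [entry_eq v p hp M2 hs2 i j, hc2]
    ring

end Pool.Agent.Y366.SM
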